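import Pool.Agent.P.MP_932208_ag.Ax.Main
import Pool.Agent.P.MP_932208_ag.Ex.Exist2

namespace Pool.Agent.Results.MP_932208_ag.Axiomatic

open CategoryTheory Pool.Agent.P.MP_932208_ag.Ax

/-- A determinant theory exists, and `det (f_* F) ≅ O(lZ)` for every determinant theory. -/
theorem result : Nonempty Determinant ∧
    ∀ (D : Determinant) {J : Type} [SmallCategory J] {A B : J ⥤ SRing} {φ : A ⟶ B}
      (Z : VirtualCartier φ) (F : Mod B) (l : ℤ), F.PerfectOfRank l →
        (D.det (F.push φ)).Equiv (Z.O l) :=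
  ⟨⟨theDeterminant⟩, fun D _ _ _ _ _ Z _ _ hF => D.det_push Z hF⟩

end Pool.Agent.Results.MP_932208_ag.Axiomatic
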